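import Pool.Agent.W332.HalfB

set_option autoImplicit false

open scoped MatrixGroups

namespace Pool.Agent.Results.MP_11bee9_al.HalfMissed

open Pool.Agent.W332.Half

/-- The word `x⁴ y x y⁻¹ x⁻¹ y x y⁻¹ x⁻² y x⁻¹ y⁻¹ x⁻¹ y x⁻¹ y⁻¹` in the free group on
`x = of 0` and `y = of 1`. -/
def w : FreeGroup (Fin 2) :=
  FreeGroup.of 0 ^ 4 * FreeGroup.of 1 * FreeGroup.of 0 * (FreeGroup.of 1)⁻¹ * (FreeGroup.of 0)⁻¹ *
    FreeGroup.of 1 * FreeGroup.of 0 * (FreeGroup.of 1)⁻¹ * (FreeGroup.of 0 ^ 2)⁻¹ *
    FreeGroup.of 1 * (FreeGroup.of 0)⁻¹ * (FreeGroup.of 1)⁻¹ * (FreeGroup.of 0)⁻¹ *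
    FreeGroup.of 1 * (FreeGroup.of 0)⁻¹ * (FreeGroup.of 1)⁻¹

/-- The diagonal matrix with entries `u, u⁻¹`. -/
def diag {K : Type} [Field K] (u : Kˣ) : SL(2, K) :=
  ⟨!![(u : K), 0; 0, ((u⁻¹ : Kˣ) : K)], by simp [Matrix.det_fin_two]⟩

/-- Regular semisimple elements of the group `SL(2, K)` over a field `K` of characteristic `p`:
the order is (nonzero and) prime to `p`, and the centraliser in `SL(2)` over the algebraic closure
of `K` is a conjugate of the one-dimensional torus of all diagonal matrices. -/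
def IsRegSemisimple (p : ℕ) {K : Type} [Field K] (g : SL(2, K)) : Prop :=
  IsOfFinOrder g ∧ (orderOf g).Coprime p ∧
    ∃ h : SL(2, AlgebraicClosure K), ∀ z : SL(2, AlgebraicClosure K),
      z * Matrix.SpecialLinearGroup.map (algebraMap K (AlgebraicClosure K)) g =
          Matrix.SpecialLinearGroup.map (algebraMap K (AlgebraicClosure K)) g * z ↔
        ∃ u : (AlgebraicClosure K)ˣ, z = h * diag u * h⁻¹

lemma dg_eq {K : Type} [Field K] (u : Kˣ) : diag u = dg u := rfl

/-- A matrix of nonzero trace over a finite field of characteristic two is regular semisimple. -/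
lemma regular {K : Type} [Field K] [Finite K] [CharP K 2] (g : SL(2, K))
    (ht : (g : Matrix (Fin 2) (Fin 2) K).trace ≠ 0) : IsRegSemisimple 2 g := by
  set L := AlgebraicClosure K with hL
  have hch : CharP L 2 := charP_of_injective_algebraMap (algebraMap K L).injective 2
  have h2 : (2 : L) = 0 := CharTwo.two_eq_zero
  set φ := Matrix.SpecialLinearGroup.map (n := Fin 2) (algebraMap K L) with hφ
  have hφi : Function.Injective φ := by
    intro A B hAB
    apply Subtype.ext
    ext i j
    have := congrArg (fun M : SL(2, L) => (M : Matrix (Fin 2) (Fin 2) L) i j) hAB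
    exact (algebraMap K L).injective this
  set t : L := algebraMap K L (g : Matrix (Fin 2) (Fin 2) K).trace with htt
  have ht0 : t ≠ 0 := by
    rw [htt]
    exact (map_ne_zero _).2 ht
  -- an eigenvalue
  obtain ⟨l, hl⟩ : ∃ l : L, l ^ 2 - t * l + 1 = 0 := by
    have hdeg : (Polynomial.X ^ 2 - Polynomial.C t * Polynomial.X + 1 : Polynomial L).degree ≠ 0 := by
      have : (Polynomial.X ^ 2 - Polynomial.C t * Polynomial.X + 1 : Polynomial L).degree = 2 := by
        compute_degree!
      rw [this]
      norm_num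
    obtain ⟨l, hl⟩ := IsAlgClosed.exists_root _ hdeg
    refine ⟨l, ?_⟩
    simpa [Polynomial.IsRoot] using hl
  have hl0 : l ≠ 0 := by
    rintro rfl
    simp at hl
  set u : Lˣ := Units.mk0 l hl0 with hu
  have hul : (u : L) = l := rfl
  have hinv : ((u⁻¹ : Lˣ) : L) = t - l := by
    have h1 : (u : L) * ((u⁻¹ : Lˣ) : L) = 1 := by simp
    have h3 : l * ((u⁻¹ : Lˣ) : L) = l * (t - l) := by
      rw [hul] at h1
      linear_combination h1 + hl
    exact mul_left_cancel₀ hl0 h3
  have hne : (u : L) ≠ ((u⁻¹ : Lˣ) : L) := by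
    rw [hinv, hul]
    intro h
    apply ht0
    linear_combination l * h2 - h
  have htr : ((φ g : SL(2, L)) : Matrix (Fin 2) (Fin 2) L).trace = u + ((u⁻¹ : Lˣ) : L) := by
    rw [hinv, hul, htt, Matrix.trace_fin_two, Matrix.trace_fin_two, map_add]
    simp [hφ]
  obtain ⟨h, hh⟩ := exists_diag (φ g) u hne htr
  have hfin : Finite SL(2, K) := by
    have := Fintype.ofFinite K
    classical
    exact Subtype.finite
  have hof : IsOfFinOrder g := isOfFinOrder_of_finite g
  have hpow : ∀ n : ℕ, φ (g ^ n) = h * dg (u ^ n) * h⁻¹ := by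
    intro n
    rw [map_pow, hh, conj_pow]
    congr 2
    exact (map_pow (dgHom L) u n).symm
  refine ⟨hof, ?_, h, ?_⟩
  · rw [Nat.coprime_two_right]
    by_contra hodd
    rw [Nat.not_odd_iff_even] at hodd
    obtain ⟨m, hm⟩ := hodd
    have hm0 : 0 < orderOf g := hof.orderOf_pos
    have h1 : u ^ (m + m) = 1 := by
      have h3 := hpow (orderOf g)
      rw [pow_orderOf_eq_one, map_one, hm] at h3
      have h4 : dg (u ^ (m + m)) = 1 := by
        have h5 : h * dg (u ^ (m + m)) * h⁻¹ = 1 := h3.symm
        have h6 : h * dg (u ^ (m + m)) = h := by rwa [mul_inv_eq_one] at h5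
        exact mul_eq_left.1 h6
      have h7 := congrArg (fun M : SL(2, L) => (M : Matrix (Fin 2) (Fin 2) L) 0 0) h4
      simp [dg] at h7
      apply Units.ext
      simpa using h7
    have h3 : u ^ m = 1 := by
      apply Units.ext
      have h4 : (u : L) ^ m * (u : L) ^ m = 1 := by
        have h6 := congrArg (fun x : Lˣ => (x : L)) h1
        simpa [pow_add] using h6
      rw [Units.val_pow_eq_pow_val, Units.val_one]
      have h5 : ((u : L) ^ m - 1) ^ 2 = 0 := by
        linear_combination h4 + (1 - (u : L) ^ m) * h2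
      exact sub_eq_zero.1 (pow_eq_zero_iff (two_ne_zero)|>.1 h5)
    have h4 : g ^ m = 1 := by
      apply hφi
      rw [hpow, h3, dg_one, mul_one, mul_inv_cancel, map_one]
    have h5 := orderOf_dvd_of_pow_eq_one h4
    have := Nat.le_of_dvd (by omega) h5
    omega
  · intro z
    change z * φ g = φ g * z ↔ _
    rw [hh]
    have h1 : z * (h * dg u * h⁻¹) = h * dg u * h⁻¹ * z ↔
        (h⁻¹ * z * h) * dg u = dg u * (h⁻¹ * z * h) := by
      constructor
      · intro h3
        have h4 := congrArg (fun a => h⁻¹ * a * h) h3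
        simpa [mul_assoc] using h4
      · intro h3
        have h4 := congrArg (fun a => h * a * h⁻¹) h3
        simpa [mul_assoc] using h4
    rw [h1, comm_dg u hne]
    refine exists_congr fun v => ?_
    rw [dg_eq]
    constructor
    · intro h3
      rw [← h3]
      group
    · intro h3
      rw [h3]
      group

/-- The word `w` is not a proper power, and for every finite field `K` of characteristic two there
is a set `T` consisting of exactly half of the elements of `K` such that every matrix in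
`SL(2, K)` with trace in `T` is regular semisimple and is not a value of `w` on `SL(2, K)`. -/
theorem result :
    (∀ (v : FreeGroup (Fin 2)) (k : ℕ), 2 ≤ k → v ^ k ≠ w) ∧
    ∀ (K : Type) [Field K] [Finite K] [CharP K 2],
      ∃ T : Set K, 2 * T.ncard = Nat.card K ∧
        (∀ t ∈ T, ∃ g : SL(2, K), (g : Matrix (Fin 2) (Fin 2) K).trace = t) ∧
        ∀ g : SL(2, K), (g : Matrix (Fin 2) (Fin 2) K).trace ∈ T →
          IsRegSemisimple 2 g ∧ ∀ x y : SL(2, K), FreeGroup.lift ![x, y] w ≠ g := by
  refine ⟨not_pow, fun K _ _ _ => ⟨{t : K | ∀ A : K, t ≠ A ^ 2 + A}, half_card K, ?_, ?_⟩⟩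
  · intro t _
    have h2 : (2 : K) = 0 := CharTwo.two_eq_zero
    refine ⟨⟨!![t, 1; 1, 0], ?_⟩, ?_⟩
    · rw [Matrix.det_fin_two]
      simp only [Matrix.of_apply, Matrix.cons_val', Matrix.cons_val_zero, Matrix.cons_val_one,
        Matrix.cons_val_fin_one]
      linear_combination -h2
    · simp [Matrix.trace_fin_two]
  · intro g hg
    refine ⟨regular g ?_, ?_⟩
    · intro h0
      exact hg 0 (by rw [h0]; simp)
    · intro x y hxy
      obtain ⟨A, hA⟩ := trace_wordVal (CharTwo.two_eq_zero (R := K)) x y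
      apply hg A
      rw [← hA, ← hxy]
      congr 2
      exact lift_word x y

end Pool.Agent.Results.MP_11bee9_al.HalfMissed
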